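import Pool.Agent.Helper64.SPX.Spec3

/-!
Part K0: basic facts on obtuse superbases.
-/

set_option autoImplicit false

open MeasureTheory Filter Topology Set
open scoped InnerProductSpace ENNReal

namespace Pool.Agent.Helper11.SPX.K0

open Pool.Agent.Helper64.SPX

variable {ι ω : Type} [Fintype ι] [Fintype ω]

lemma neg_sum [DecidableEq ω] {b : ω → E ι} (hb : Obt b) (o₀ : ω) :
    b o₀ = -∑ p : {o // o ≠ o₀}, b p := by
  have h := hb.sum
  rw [Fintype.sum_eq_add_sum_subtype_ne _ o₀] at h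
  exact eq_neg_of_add_eq_zero_left h

lemma span_ne [DecidableEq ω] {b : ω → E ι} (hb : Obt b) (o₀ : ω) :
    ⊤ ≤ Submodule.span ℝ (Set.range (fun o : {o // o ≠ o₀} => b o)) := by
  refine hb.span.trans (Submodule.span_le.2 ?_)
  rintro _ ⟨o, rfl⟩
  by_cases h : o = o₀
  · subst h
    rw [neg_sum hb o]
    exact Submodule.neg_mem _ (Submodule.sum_mem _ fun p _ => Submodule.subset_span ⟨p, rfl⟩)
  · exact Submodule.subset_span ⟨⟨o, h⟩, rfl⟩

lemma card_ne [DecidableEq ω] {b : ω → E ι} (hb : Obt b) (o₀ : ω) :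
    Fintype.card {o // o ≠ o₀} = Fintype.card ι := by
  rw [Fintype.card_subtype_compl (fun o => o = o₀), Fintype.card_subtype_eq, hb.card]
  rfl

lemma li [DecidableEq ω] {b : ω → E ι} (hb : Obt b) (o₀ : ω) :
    LinearIndependent ℝ (fun o : {o // o ≠ o₀} => b o) := by
  apply linearIndependent_of_top_le_span_of_card_eq_finrank (span_ne hb o₀)
  rw [card_ne hb o₀, finrank_euclideanSpace]

/-- all relations are constant -/
lemma rel_const {b : ω → E ι} (hb : Obt b) (a : ω → ℝ) (ha : ∑ o, a o • b o = 0) (o o' : ω) :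
    a o = a o' := by
  classical
  by_cases h : o = o'
  · rw [h]
  have h1 : ∑ p, (a p - a o') • b p = 0 := by
    simp only [sub_smul, Finset.sum_sub_distrib, ha, ← Finset.smul_sum, hb.sum, smul_zero, sub_zero]
  rw [Fintype.sum_eq_add_sum_subtype_ne _ o', sub_self, zero_smul, zero_add] at h1
  have h2 := Fintype.linearIndependent_iff.1 (li hb o') (fun p => a p - a o') h1 ⟨o, h⟩
  exact sub_eq_zero.1 h2

lemma bS_ne {b : ω → E ι} (hb : Obt b) {K : Finset ω} (h1 : K.Nonempty) (h2 : K ≠ Finset.univ) :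
    bS b K ≠ 0 := by
  classical
  intro h
  obtain ⟨k, hk⟩ := h1
  obtain ⟨j, hj⟩ : ∃ j, j ∉ K := by
    by_contra hc
    push Not at hc
    exact h2 (Finset.eq_univ_iff_forall.2 hc)
  have h3 : ∑ o, (if o ∈ K then (1 : ℝ) else 0) • b o = 0 := by
    unfold bS at h
    rw [← h, ← Finset.sum_filter_add_sum_filter_not Finset.univ (fun o => o ∈ K)]
    have e1 : ∑ o ∈ Finset.univ.filter (fun o => o ∈ K), (if o ∈ K then (1 : ℝ) else 0) • b o =
        ∑ o ∈ K, b o := by
      rw [Finset.filter_mem_eq_inter, Finset.univ_inter]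
      exact Finset.sum_congr rfl fun o ho => by rw [if_pos ho, one_smul]
    have e2 : ∑ o ∈ Finset.univ.filter (fun o => ¬ o ∈ K),
        (if o ∈ K then (1 : ℝ) else 0) • b o = 0 := by
      apply Finset.sum_eq_zero
      intro o ho
      rw [if_neg (Finset.mem_filter.1 ho).2, zero_smul]
    rw [e1, e2, add_zero]
  have h4 := rel_const hb _ h3 k j
  rw [if_pos hk, if_neg hj] at h4
  exact one_ne_zero h4

lemma bS_compl [DecidableEq ω] {b : ω → E ι} (hb : Obt b) (K : Finset ω) : bS b K = -bS b Kᶜ := by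
  unfold bS
  apply eq_neg_of_add_eq_zero_left
  rw [Finset.sum_add_sum_compl]
  exact hb.sum

lemma conn {b : ω → E ι} (hb : Obt b) {K : Finset ω} (h1 : K.Nonempty) (h2 : K ≠ Finset.univ) :
    ∃ k ∈ K, ∃ j, j ∉ K ∧ Adj b k j := by
  classical
  by_contra hc
  push Not at hc
  apply bS_ne hb h1 h2
  rw [← inner_self_eq_zero (𝕜 := ℝ)]
  have h3 : ⟪bS b K, bS b K⟫_ℝ = ⟪bS b K, -bS b Kᶜ⟫_ℝ := by rw [← bS_compl hb K]
  rw [h3, inner_neg_right, neg_eq_zero]
  unfold bS
  rw [sum_inner]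
  apply Finset.sum_eq_zero
  intro k hk
  rw [inner_sum]
  apply Finset.sum_eq_zero
  intro j hj
  have hj' : j ∉ K := Finset.mem_compl.1 hj
  have h4 := hc k hk j hj'
  unfold Adj at h4
  have h5 := hb.obt k j (fun h => hj' (h ▸ hk))
  exact le_antisymm h5 (not_lt.1 h4)

theorem main : S_K0 := by
  intro ι ω _ _ b hb
  classical
  refine ⟨fun K h1 h2 => ⟨bS_ne hb h1 h2, conn hb h1 h2⟩, ?_⟩
  obtain ⟨o₀⟩ : Nonempty ω := by
    rw [← Fintype.card_pos_iff, hb.card]; omega
  let e : {o // o ≠ o₀} ≃ ι := Fintype.equivOfCardEq (card_ne hb o₀)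
  let B : Module.Basis {o // o ≠ o₀} ℝ (E ι) := Module.Basis.mk (li hb o₀) (span_ne hb o₀)
  let β : Module.Basis ι ℝ (E ι) := B.reindex e
  have hβ : ∀ i, β i = b (e.symm i) := by
    intro i
    simp [β, B]
  refine ⟨⟨β, fun x => ⟨?_, ?_⟩⟩, fun g hg => ?_⟩
  · rintro ⟨c, rfl⟩
    refine ⟨fun o => if h : o ≠ o₀ then c (e ⟨o, h⟩) else 0, ?_⟩
    rw [Fintype.sum_eq_add_sum_subtype_ne _ o₀]
    beta_reduce
    rw [dif_neg (fun h : o₀ ≠ o₀ => h rfl), Int.cast_zero, zero_smul, zero_add, ← e.sum_comp]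
    refine Finset.sum_congr rfl fun p _ => ?_
    rw [hβ, Equiv.symm_apply_apply, dif_pos p.2]
  · rintro ⟨c, rfl⟩
    refine ⟨fun i => c (e.symm i) - c o₀, ?_⟩
    rw [Fintype.sum_eq_add_sum_subtype_ne _ o₀, neg_sum hb o₀, ← e.sum_comp]
    simp only [hβ, Equiv.symm_apply_apply, Int.cast_sub, sub_smul, Finset.sum_sub_distrib,
      ← Finset.smul_sum, smul_neg]
    abel
  · let f : E ι →ₗ[ℝ] ℝ := β.constr ℝ (fun i => g (e.symm i))
    let x : E ι := (InnerProductSpace.toDual ℝ (E ι)).symm (LinearMap.toContinuousLinearMap f)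
    have hx : ∀ y, ⟪x, y⟫_ℝ = f y := by
      intro y
      simp [x]
    have h1 : ∀ p : {o // o ≠ o₀}, ⟪b p, x⟫_ℝ = g p := by
      intro p
      rw [real_inner_comm, hx]
      have : b p = β (e p) := by rw [hβ, Equiv.symm_apply_apply]
      rw [this]
      simp [f]
    refine ⟨x, fun o => ?_⟩
    by_cases h : o = o₀
    · subst h
      rw [neg_sum hb o, inner_neg_left, sum_inner]
      rw [Fintype.sum_eq_add_sum_subtype_ne _ o] at hg
      rw [Finset.sum_congr rfl fun p _ => h1 p]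
      linarith
    · exact h1 ⟨o, h⟩

end Pool.Agent.Helper11.SPX.K0
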